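import Pool.Agent.Helper89.OC.St3

/-!
# Project OC (MP_2b6189_al), module CIX: one step of the class inequality
-/

set_option autoImplicit false

namespace Pool.Agent.Helper6.OC

open Matrix ComplexConjugate Pool.Agent.Helper94.YF Pool.Agent.Helper94.YG Pool.Agent.Helper89.OS
open Pool.Agent.Helper89.OC

private theorem ext4 {L : ℕ} {A B : SL L} (h1 : A.1 0 0 = B.1 0 0) (h2 : A.1 0 1 = B.1 0 1)
    (h3 : A.1 1 0 = B.1 1 0) (h4 : A.1 1 1 = B.1 1 1) : A = B := by
  apply Subtype.ext
  ext i j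
  fin_cases i <;> fin_cases j
  · exact h1
  · exact h2
  · exact h3
  · exact h4

private theorem mulE {L : ℕ} (A B : SL L) (i j : Fin 2) :
    (A * B).1 i j = A.1 i 0 * B.1 0 j + A.1 i 1 * B.1 1 j := by
  change (A.1 * B.1) i j = _
  rw [Matrix.mul_apply, Fin.sum_univ_two]

private theorem u00 {L : ℕ} (z : ZMod L) : (U z).1 0 0 = 1 := rfl
private theorem u01 {L : ℕ} (z : ZMod L) : (U z).1 0 1 = z := rfl
private theorem u10 {L : ℕ} (z : ZMod L) : (U z).1 1 0 = 0 := rfl
private theorem u11 {L : ℕ} (z : ZMod L) : (U z).1 1 1 = 1 := rfl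
private theorem l00 {L : ℕ} (z : ZMod L) : (Lo z).1 0 0 = 1 := rfl
private theorem l01 {L : ℕ} (z : ZMod L) : (Lo z).1 0 1 = 0 := rfl
private theorem l10 {L : ℕ} (z : ZMod L) : (Lo z).1 1 0 = z := rfl
private theorem l11 {L : ℕ} (z : ZMod L) : (Lo z).1 1 1 = 1 := rfl

private theorem s00 {L : ℕ} {b : ZMod L} (hb : b * b = b) : (s2 b).1 0 0 = 1 - b := by
  simp only [s2, mulE, u00, u01, u10, l00, l01, l10, l11]
  linear_combination (-1 : ZMod L) * hb
private theorem s01 {L : ℕ} {b : ZMod L} (hb : b * b = b) : (s2 b).1 0 1 = -b := by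
  simp only [s2, mulE, u00, u01, u11, l00, l01, l10, l11]
  grind
private theorem s10 {L : ℕ} {b : ZMod L} : (s2 b).1 1 0 = b := by
  simp only [s2, mulE, u00, u10, u11, l00, l01, l10, l11]
  ring
private theorem s11 {L : ℕ} {b : ZMod L} (hb : b * b = b) : (s2 b).1 1 1 = 1 - b := by
  simp only [s2, mulE, u01, u10, u11, l00, l01, l10, l11]
  linear_combination (-1 : ZMod L) * hb

private theorem s2_add {L : ℕ} {b c : ZMod L} (hb : b * b = b) (hc : c * c = c)
    (hcb : c * b = 0) : (s2 (c + b) : SL L) = s2 c * s2 b := by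
  have hcb2 : (c + b) * (c + b) = c + b := by linear_combination hb + hc + 2 * hcb
  apply ext4
  · rw [mulE, s00 hcb2, s00 hc, s00 hb, s01 hc, s10]; linear_combination (0 : ZMod L) * hcb
  · rw [mulE, s01 hcb2, s00 hc, s01 hb, s01 hc, s11 hb]; linear_combination (-2 : ZMod L) * hcb
  · rw [mulE, s10, s10, s00 hb, s11 hc, s10]; linear_combination (2 : ZMod L) * hcb
  · rw [mulE, s11 hcb2, s10, s01 hb, s11 hc, s11 hb]; linear_combination (0 : ZMod L) * hcb

private theorem u_comm {L : ℕ} {b c : ZMod L} (hc : c * c = c)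
    (hcb : c * b = 0) : (U b * s2 c : SL L) = s2 c * U b := by
  apply ext4
  · rw [mulE, mulE, u00, u01, u10, s00 hc, s10]; linear_combination hcb
  · rw [mulE, mulE, u00, u01, u11, s00 hc, s01 hc, s11 hc]; ring
  · rw [mulE, mulE, u10, u11, u00, s10, s00 hc]; ring
  · rw [mulE, mulE, u10, u11, u01, s10, s11 hc]; linear_combination (-1 : ZMod L) * hcb

theorem hCIX : StCIX := by
  classical
  intro I _ _ Z p b X lk c hcc hcb
  have hpP : p.Prime := X.prime
  have hp0 : (p : ℂ) ≠ 0 := by exact_mod_cast hpP.ne_zero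
  have hp0r : (p : ℝ) ≠ 0 := by exact_mod_cast hpP.ne_zero
  have hppos : (0 : ℝ) < p := by exact_mod_cast hpP.pos
  have hp1 : (p : ℂ) + 1 ≠ 0 := by
    have : ((p + 1 : ℕ) : ℂ) ≠ 0 := by exact_mod_cast Nat.succ_ne_zero p
    push_cast at this; exact this
  have hp1r : (p : ℝ) + 1 ≠ 0 := by positivity
  have hbb : b * b = b := lk.idp.idem
  have hbc : b * c = 0 := by rw [mul_comm]; exact hcb
  obtain ⟨hU, -, -, -, -, -, -, -, -, -, -⟩ :=
    Pool.Agent.Helper36.YF.hFUS Pool.Agent.Helper88.YF.hDUA I Z.toCentreRep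
  set R : Matrix I I ℂ := Z.rho (s2 c) with hR
  set Sg : Matrix I I ℂ := Z.rho (s2 b) with hSg
  have hcomb : Z.rho (s2 (c + b)) = R * Sg := by
    rw [s2_add hbb hcc hcb, map_mul]
  have hcomm : R * Sg = Sg * R := by
    rw [← hcomb, add_comm c b, s2_add hcc hbb hbc, map_mul]
  have ho : X.o = Z.o := lk.o
  have hs : ∀ i k, Sg i k = X.s i k / p := by
    intro i k
    rw [lk.s]
    field_simp
    rw [hSg]
  have hSgs : ∀ i k, Sg i k = Sg k i := by
    intro i k; rw [hs, hs, X.s_symm]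
  have hSgo : ∀ i, Sg i X.o = X.y i / p := by
    intro i; rw [hs, X.s_o]
  -- `R` is block diagonal
  have hRt : ∀ i k, R i k ≠ 0 → X.t i = X.t k := by
    intro i k hik
    have h1 : Z.rho (U b) * R = R * Z.rho (U b) := by
      rw [hR, ← map_mul, ← map_mul, u_comm hcc hcb]
    rw [hU b] at h1
    have h2 := congrFun (congrFun h1 i) k
    rw [Matrix.diagonal_mul, Matrix.mul_diagonal] at h2
    rw [lk.t]
    have h3 : (Z.tw b i - Z.tw b k) * R i k = 0 := by linear_combination h2
    rcases mul_eq_zero.1 h3 with h4 | h4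
    · exact sub_eq_zero.1 h4
    · exact absurd h4 hik
  -- the vector `h`
  set hr : I → ℝ := fun k => (if k = X.o then 1 else 0) - (if X.t k = 1 then (X.y k : ℝ) / p else 0)
    with hhr
  set h : I → ℂ := fun k => ((hr k : ℝ) : ℂ) with hh
  have hval : ∀ k, h k = (if k = X.o then 1 else 0) -
      (if X.t k = 1 then (X.y k : ℂ) / p else 0) := by
    intro k
    simp only [hh, hhr]
    push_cast
    split_ifs <;> simp
  have hsupp : ∀ k, X.t k ≠ 1 → h k = 0 := by
    intro k hk
    rw [hval, if_neg hk, if_neg]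
    · simp
    · rintro rfl; exact hk X.t_o
  -- HEC
  have hinj : ∀ (c' : (ZMod (p ^ 1))ˣ) (i : I), X.pi c' i = X.o ↔ i = X.o := by
    intro c' i
    constructor
    · intro hi
      have := congrArg (X.pi c'⁻¹) hi
      rwa [← X.pi_mul, inv_mul_cancel, X.pi_one, X.pi_o] at this
    · rintro rfl; exact X.pi_o c'
  have hHEC := Pool.Agent.Helper8.OS.hHEC I p X (fun i => if i = X.o then (1 : ℂ) else 0)
    (by intro c' i; simp only [hinj c' i])
    (by
      intro i hi
      by_cases h' : i = X.o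
      · rw [h']; exact X.t_o
      · exact absurd (if_neg h') hi)
  have hHEC' : ∀ j, X.t j = 1 → (∑ k, if X.t k = 1 then X.s j k * (X.y k : ℂ) else 0) =
      (p : ℂ) * (if j = X.o then 1 else 0) + ((p : ℂ) - 1) * X.y j := by
    intro j hj
    have h1 := hHEC j
    have h2 : ∀ k, ∑ i, X.s k i * (if i = X.o then (1 : ℂ) else 0) = X.y k := by
      intro k
      simp [X.s_o]
    simp only [h2, hj, if_true] at h1
    exact h1
  -- `Sg h = - h / p` on `t = 1`
  have hSh : ∀ j, X.t j = 1 → ∑ k, Sg j k * h k = -(h j) / p := by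
    intro j hj
    have e1 : ∑ k, Sg j k * h k = X.y j / p -
        (1 / (p : ℂ) ^ 2) * ∑ k, (if X.t k = 1 then X.s j k * (X.y k : ℂ) else 0) := by
      have e2 : ∀ k, Sg j k * h k = (if k = X.o then Sg j k else 0) -
          (1 / (p : ℂ) ^ 2) * (if X.t k = 1 then X.s j k * (X.y k : ℂ) else 0) := by
        intro k
        rw [hval, hs]
        split_ifs <;> field_simp <;> ring
      rw [Finset.sum_congr rfl fun k _ => e2 k, Finset.sum_sub_distrib, ← Finset.mul_sum,
        Finset.sum_ite_eq' Finset.univ X.o, if_pos (Finset.mem_univ _), hSgo]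
    rw [e1, hHEC' j hj, hval, if_pos hj]
    split_ifs <;> field_simp <;> ring
  -- `G = R h`
  set G : I → ℂ := fun i => ∑ k, R i k * h k with hG
  have hGs : ∀ i, X.t i ≠ 1 → G i = 0 := by
    intro i hi
    refine Finset.sum_eq_zero fun k _ => ?_
    by_cases hik : R i k = 0
    · rw [hik, zero_mul]
    · rw [hsupp k, mul_zero]
      rw [← hRt i k hik]; exact hi
  have hGe : ∀ i, X.t i = 1 → G i = -(p : ℂ) * ∑ k, Sg i k * G k := by
    intro i hi
    have e1 : ∑ k, Sg i k * G k = ∑ k, R i k * ∑ l, Sg k l * h l := by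
      have a1 : ∑ k, Sg i k * G k = ((Sg * R).mulVec h) i := by
        rw [← Matrix.mulVec_mulVec]; rfl
      have a2 : ∑ k, R i k * ∑ l, Sg k l * h l = ((R * Sg).mulVec h) i := by
        rw [← Matrix.mulVec_mulVec]; rfl
      rw [a1, a2, hcomm]
    rw [e1]
    have e2 : ∀ k, R i k * ∑ l, Sg k l * h l = -(1 / (p : ℂ)) * (R i k * h k) := by
      intro k
      by_cases hik : R i k = 0
      · rw [hik]; ring
      · rw [hSh k (by rw [← hRt i k hik]; exact hi)]
        ring
    rw [Finset.sum_congr rfl fun k _ => e2 k, ← Finset.mul_sum]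
    change G i = _ * (_ * G i)
    field_simp
  -- the vector `v`
  set v : I → ℂ := fun k => (if k = X.o then 1 else 0) - ((p : ℂ) / (p + 1)) * h k with hv
  have hvs : ∀ k, X.t k ≠ 1 → v k = 0 := by
    intro k hk
    have h1 : k ≠ X.o := by rintro rfl; exact hk X.t_o
    simp only [hv, if_neg h1, hsupp k hk]
    ring
  have hSv : ∀ j, X.t j = 1 → ∑ k, Sg j k * v k = v j := by
    intro j hj
    have e1 : ∑ k, Sg j k * v k = X.y j / p - ((p : ℂ) / (p + 1)) * ∑ k, Sg j k * h k := by
      have e2 : ∀ k, Sg j k * v k = (if k = X.o then Sg j k else 0) -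
          ((p : ℂ) / (p + 1)) * (Sg j k * h k) := by
        intro k
        simp only [hv]
        split_ifs <;> ring
      rw [Finset.sum_congr rfl fun k _ => e2 k, Finset.sum_sub_distrib, ← Finset.mul_sum,
        Finset.sum_ite_eq' Finset.univ X.o, if_pos (Finset.mem_univ _), hSgo]
    rw [e1, hSh j hj]
    simp only [hv]
    rw [hval, if_pos hj]
    split_ifs <;> field_simp <;> ring
  have hbeta : ∑ i, v i * G i = 0 := by
    have e1 : ∑ i, v i * G i = -(p : ℂ) * ∑ i, v i * G i := by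
      have e2 : ∀ i, v i * G i = -(p : ℂ) * ∑ k, Sg k i * v i * G k := by
        intro i
        by_cases hi : X.t i = 1
        · rw [hGe i hi, mul_left_comm, Finset.mul_sum]
          congr 1
          refine Finset.sum_congr rfl fun k _ => ?_
          rw [hSgs i k]; ring
        · rw [hvs i hi]; simp
      have e3 : ∀ k, ∑ i, Sg k i * v i * G k = v k * G k := by
        intro k
        rw [← Finset.sum_mul]
        by_cases hk : X.t k = 1
        · rw [hSv k hk]
        · rw [hGs k hk]; ring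
      calc ∑ i, v i * G i = ∑ i, -(p : ℂ) * ∑ k, Sg k i * v i * G k :=
            Finset.sum_congr rfl fun i _ => e2 i
        _ = -(p : ℂ) * ∑ k, ∑ i, Sg k i * v i * G k := by
            rw [← Finset.mul_sum, Finset.sum_comm]
        _ = -(p : ℂ) * ∑ k, v k * G k := by
            rw [Finset.sum_congr rfl fun k _ => e3 k]
    have e4 : ((p : ℂ) + 1) * ∑ i, v i * G i = 0 := by linear_combination e1
    rcases mul_eq_zero.1 e4 with h5 | h5
    · exact absurd h5 hp1
    · exact h5
  -- the number `A`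
  have hA : R Z.o Z.o - (R * Sg) Z.o Z.o = G X.o := by
    rw [← ho, Matrix.mul_apply]
    have e1 : ∀ k, R X.o k * Sg k X.o = R X.o k * (if X.t k = 1 then (X.y k : ℂ) / p else 0) := by
      intro k
      by_cases hk : R X.o k = 0
      · rw [hk]; ring
      · have : X.t k = 1 := by rw [← hRt X.o k hk]; exact X.t_o
        rw [if_pos this, hSgo]
    rw [Finset.sum_congr rfl fun k _ => e1 k]
    simp only [hG, hval, mul_sub, Finset.sum_sub_distrib]
    simp
  have hA2 : G X.o = ((p : ℂ) / (p + 1)) * ∑ i, h i * G i := by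
    have e1 : ∑ i, v i * G i = G X.o - ((p : ℂ) / (p + 1)) * ∑ i, h i * G i := by
      have e2 : ∀ i, v i * G i = (if i = X.o then G i else 0) -
          ((p : ℂ) / (p + 1)) * (h i * G i) := by
        intro i
        simp only [hv]
        split_ifs <;> ring
      rw [Finset.sum_congr rfl fun k _ => e2 k, Finset.sum_sub_distrib, ← Finset.mul_sum,
        Finset.sum_ite_eq' Finset.univ X.o, if_pos (Finset.mem_univ _)]
    rw [hbeta] at e1
    linear_combination -e1
  -- norms
  have hnorm : ∑ i, ‖G i‖ ^ 2 = ∑ i, ‖h i‖ ^ 2 := by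
    have e1 : star (R.mulVec h) ⬝ᵥ (R.mulVec h) = star h ⬝ᵥ h := by
      rw [Matrix.star_mulVec, ← Matrix.dotProduct_mulVec, Matrix.mulVec_mulVec, Z.unitary,
        Matrix.one_mulVec]
    have e2 : ∀ w : I → ℂ, star w ⬝ᵥ w = ((∑ i, ‖w i‖ ^ 2 : ℝ) : ℂ) := by
      intro w
      rw [Complex.ofReal_sum]
      refine Finset.sum_congr rfl fun i _ => ?_
      rw [Pi.star_apply, Complex.star_def, mul_comm, Complex.mul_conj, Complex.normSq_eq_norm_sq]
    rw [e2, e2] at e1
    exact_mod_cast e1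
  have hh2 : ∑ i, ‖h i‖ ^ 2 = ((p : ℝ) + 1) * (gX X : ℝ) / (p : ℝ) ^ 2 := by
    have e1 : ∀ i, ‖h i‖ ^ 2 = (if i = X.o then 1 - 2 * ((X.y i : ℝ) / p) else 0) +
        (1 / (p : ℝ) ^ 2) * (((if X.t i = 1 then X.y i ^ 2 else 0 : ℤ)) : ℝ) := by
      intro i
      have e0 : ‖h i‖ ^ 2 = hr i ^ 2 := by
        simp only [hh]
        rw [Complex.norm_real, Real.norm_eq_abs, sq_abs]
      rw [e0]
      simp only [hhr]
      by_cases hi : i = X.o
      · have ht : X.t i = 1 := by rw [hi]; exact X.t_o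
        rw [if_pos hi, if_pos ht, if_pos hi, if_pos ht]
        push_cast
        ring
      · rw [if_neg hi, if_neg hi]
        by_cases ht : X.t i = 1
        · rw [if_pos ht, if_pos ht]; push_cast; ring
        · rw [if_neg ht, if_neg ht]; push_cast; ring
    have e2 := (Pool.Agent.Helper39.OS.hMZZ I p X).2.1
    rw [Finset.sum_congr rfl fun i _ => e1 i, Finset.sum_add_distrib, ← Finset.mul_sum,
      Finset.sum_ite_eq' Finset.univ X.o, if_pos (Finset.mem_univ _), ← Int.cast_sum, e2]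
    simp only [gX]
    push_cast
    field_simp
    ring
  have hCS : ‖∑ i, h i * G i‖ ≤ ∑ i, ‖h i‖ ^ 2 := by
    calc ‖∑ i, h i * G i‖ ≤ ∑ i, ‖h i * G i‖ := norm_sum_le _ _
      _ ≤ ∑ i, (‖h i‖ ^ 2 + ‖G i‖ ^ 2) / 2 := by
          refine Finset.sum_le_sum fun i _ => ?_
          rw [norm_mul]
          nlinarith [sq_nonneg (‖h i‖ - ‖G i‖)]
      _ = ∑ i, ‖h i‖ ^ 2 := by
          rw [← Finset.sum_div, Finset.sum_add_distrib, hnorm]; ring
  rw [hcomb, hA, hA2, norm_mul]
  have hc1 : ‖(p : ℂ) / (p + 1)‖ = (p : ℝ) / (p + 1) := by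
    have : (p : ℂ) / (p + 1) = (((p : ℝ) / (p + 1) : ℝ) : ℂ) := by push_cast; ring
    rw [this, Complex.norm_real, Real.norm_eq_abs, abs_of_nonneg (by positivity)]
  rw [hc1]
  calc (p : ℝ) / (p + 1) * ‖∑ i, h i * G i‖ ≤ (p : ℝ) / (p + 1) *
        (((p : ℝ) + 1) * (gX X : ℝ) / (p : ℝ) ^ 2) := by
        rw [← hh2]
        exact mul_le_mul_of_nonneg_left hCS (by positivity)
    _ = (gX X : ℝ) / p := by field_simp

end Pool.Agent.Helper6.OC
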